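import Pool.Agent.H74.G.R_seed8.Y331.EP.Core

/-!
# Large fibres produce pairs of segments with the same image
-/

set_option autoImplicit false
set_option linter.unusedSectionVars false

open Filter Topology Set

namespace Pool.Agent.Y331.EP

variable {X Y : Type*} [MetricSpace X] [MetricSpace Y]

theorem it_zp (f : X ≃ₜ X) (k : ℕ) (m : ℤ) (p : X) : f^[k] ((f ^ m) p) = (f ^ ((k : ℤ) + m)) p := by
  rw [← zp_nat, zpow_add]
  rfl

theorem dia_or_fin [CompactSpace X] {f : X ≃ₜ X} {g : Y ≃ₜ Y} {h : X → Y} {e : ℝ} (hE : Ex f e)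
    (hh : ∀ x, h (f x) = g (h x)) {δ : ℝ} (hδ : 0 < δ) :
    (∃ x0 y0 L c, Dia f h δ e x0 y0 L c) ∨ ∃ N : ℕ, ∀ y, (h ⁻¹' {y}).encard ≤ N := by
  classical
  have huc : UniformContinuous f := CompactSpace.uniformContinuous_of_continuous f.continuous
  obtain ⟨η, hη, h1⟩ := Metric.uniformContinuous_iff.1 huc δ hδ
  obtain ⟨t, -, htf, ht⟩ := finite_cover_balls_of_compact (isCompact_univ (X := X))
    (half_pos (lt_min hη hδ))
  have h2 : ∀ x : X, ∃ z ∈ t, dist x z < min η δ / 2 := fun x => by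
    obtain ⟨z, hz, hxz⟩ := mem_iUnion₂.1 (ht (mem_univ x))
    exact ⟨z, hz, hxz⟩
  choose c hct hc using h2
  have hclose : ∀ x y : X, c x = c y → dist x y < η ∧ dist x y < δ := by
    intro x y hxy
    have h3 := hc x
    have h4 := hc y
    rw [← hxy] at h4
    have h5 := dist_triangle_right x y (c x)
    have h6 : dist x y < min η δ := by linarith
    exact lt_min_iff.1 h6
  by_cases hcon : ∃ N : ℕ, ∀ y, (h ⁻¹' {y}).encard ≤ N
  · exact Or.inr hcon
  left
  push Not at hcon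
  obtain ⟨y, hy⟩ := hcon (htf.toFinset.card * htf.toFinset.card)
  obtain ⟨F, hF1, hF2⟩ : ∃ F : Finset X, (F : Set X) ⊆ h ⁻¹' {y} ∧
      htf.toFinset.card * htf.toFinset.card < F.card := by
    have h3 : ((htf.toFinset.card * htf.toFinset.card + 1 : ℕ) : ℕ∞) ≤ (h ⁻¹' {y}).encard := by
      push_cast
      exact Order.add_one_le_of_lt hy
    obtain ⟨s, hs1, hs2⟩ := Set.exists_subset_encard_eq h3
    have h4 : s.Finite := Set.finite_of_encard_eq_coe hs2
    refine ⟨h4.toFinset, by rwa [h4.coe_toFinset], ?_⟩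
    rw [h4.encard_eq_coe_toFinset_card] at hs2
    have h5 : h4.toFinset.card = htf.toFinset.card * htf.toFinset.card + 1 := by exact_mod_cast hs2
    omega
  have h3 : ∀ x x' : X, ∃ n : ℤ, x ≠ x' → e < dist ((f ^ n) x) ((f ^ n) x') := by
    intro x x'
    by_cases hx : x = x'
    · exact ⟨0, fun h => absurd hx h⟩
    by_contra hn
    push Not at hn
    apply hx
    have := hE.exp _ _ (orb_zp f x) (orb_zp f x') fun n => (hn n).2
    simpa using this
  choose n hn using h3
  obtain ⟨T, hT⟩ : ∃ T : ℕ, ∀ x ∈ F, ∀ x' ∈ F, (n x x').natAbs < T := by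
    refine ⟨(F.sup fun x => F.sup fun x' => (n x x').natAbs) + 1, fun x hx x' hx' => ?_⟩
    refine Nat.lt_succ_of_le ?_
    exact (Finset.le_sup (f := fun x' => (n x x').natAbs) hx').trans
      (Finset.le_sup (f := fun x => F.sup fun x' => (n x x').natAbs) hx)
  obtain ⟨x, hx, x', hx', hne, hxx⟩ := Finset.exists_ne_map_eq_of_card_lt_of_maps_to
    (s := F) (t := htf.toFinset ×ˢ htf.toFinset)
    (f := fun x => (c ((f ^ (-(T : ℤ))) x), c ((f ^ (T : ℤ)) x)))
    (by rwa [Finset.card_product]) (fun x _ => by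
      simp only [Finset.coe_product, Set.Finite.coe_toFinset, Set.mem_prod]
      exact ⟨hct _, hct _⟩)
  have hx1 := hclose _ _ (congrArg Prod.fst hxx)
  have hx2 := hclose _ _ (congrArg Prod.snd hxx)
  have hT1 := hT x hx x' hx'
  have hL : ∀ z, f^[2 * T] ((f ^ (-(T : ℤ))) z) = (f ^ (T : ℤ)) z := fun z => by
    rw [it_zp]
    congr 1
    push_cast
    ring_nf
  have hc' : ∀ z, f^[((T : ℤ) + n x x').toNat] ((f ^ (-(T : ℤ))) z) = (f ^ (n x x')) z :=
    fun z => by
      rw [it_zp, Int.toNat_of_nonneg (by omega)]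
      congr 1
      ring_nf
  refine ⟨(f ^ (-(T : ℤ))) x, (f ^ (-(T : ℤ))) x', 2 * T, ((T : ℤ) + n x x').toNat,
    ⟨by omega, by omega, (h1 hx1.1).le, ?_, ?_, ?_⟩⟩
  · rw [hL, hL]
    exact hx2.2.le
  · have h4 : ∀ z, g^[T] (h ((f ^ (-(T : ℤ))) z)) = h z := fun z => by
      rw [← semi_iter hh, it_zp]
      simp
    apply g.injective.iterate T
    rw [h4, h4]
    have h5 : h x = y := hF1 hx
    have h6 : h x' = y := hF1 hx'
    rw [h5, h6]
  · rw [hc', hc']
    exact hn x x' hne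

end Pool.Agent.Y331.EP
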