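import Pool.Agent.H74.G.R_seed8.Y331.EP.Mix
import Pool.Agent.H74.G.R_seed8.Y331.EP.Fib

/-!
# Counting periodic points and separated points
-/

set_option autoImplicit false
set_option linter.unusedSectionVars false

open Filter Topology Set

namespace Pool.Agent.Y331.EP

variable {X Y : Type*} [MetricSpace X] [MetricSpace Y]

/-- `(ℓ, v)`-separated finite sets -/
def Sp (g : Y → Y) (ℓ : ℕ) (v : ℝ) (S : Finset Y) : Prop :=
  ∀ z ∈ S, ∀ z' ∈ S, z ≠ z' → ∃ t ≤ ℓ, v < dist (g^[t] z) (g^[t] z')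

/-- the number of fixed points of `fⁿ` -/
noncomputable def Pn (f : X → X) (n : ℕ) : ℕ := {p : X | f^[n] p = p}.ncard

/-- distinct periodic points are separated -/
theorem per_sep {g : Y ≃ₜ Y} {e : ℝ} (hE : Ex g e) {n : ℕ} (hn : 1 ≤ n) {p p' : Y}
    (hp : g^[n] p = p) (hp' : g^[n] p' = p') (hne : p ≠ p') :
    ∃ t < n, e < dist (g^[t] p) (g^[t] p') := by
  by_contra hcon
  push Not at hcon
  exact hne (per_eq hE hn hp hp' hcon)

/-- uniform continuity of finitely many iterates -/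
theorem unif_iter [CompactSpace Y] (g : Y ≃ₜ Y) (c : ℕ) {e : ℝ} (he : 0 < e) :
    ∃ η > 0, ∀ x y : Y, dist x y < η → ∀ k ≤ c, dist (g^[k] x) (g^[k] y) ≤ e := by
  have h1 : ∀ k : ℕ, ∃ η > 0, ∀ x y : Y, dist x y < η → dist (g^[k] x) (g^[k] y) < e := by
    intro k
    have h2 : UniformContinuous (g^[k] : Y → Y) :=
      CompactSpace.uniformContinuous_of_continuous (g.continuous.iterate k)
    obtain ⟨η, hη, h3⟩ := Metric.uniformContinuous_iff.1 h2 e he
    exact ⟨η, hη, fun x y hxy => h3 hxy⟩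
  choose η hη h2 using h1
  have hne : (Finset.range (c + 1)).Nonempty := ⟨0, Finset.mem_range.2 (by omega)⟩
  refine ⟨(Finset.range (c + 1)).inf' hne η, ?_, fun x y hxy k hk => ?_⟩
  · rw [gt_iff_lt, Finset.lt_inf'_iff]
    exact fun k _ => hη k
  · exact (h2 k x y (hxy.trans_le (Finset.inf'_le _ (Finset.mem_range.2 (by omega))))).le

/-- **Growth of the number of periodic points over a factor with a diamond.** -/
theorem per_growth [CompactSpace X] [CompactSpace Y] {f : X ≃ₜ X} {g : Y ≃ₜ Y} {h : X → Y}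
    {ef eg ε δ ν s v : ℝ} {τ : ℕ} (C : Cs f g h ef eg ε δ ν s v τ) (hv : v ≤ eg)
    {x0 y0 : X} {L c : ℕ} (hD : Dia f h δ s x0 y0 L c) (K : ℕ) :
    ∃ n0 : ℕ, ∀ n ≥ n0, K * Pn g n ≤ Pn f n := by
  classical
  obtain ⟨η, hη, h1⟩ := unif_iter g (L + τ + τ) C.exg.pos
  obtain ⟨t, -, htf, ht⟩ := finite_cover_balls_of_compact (isCompact_univ (X := Y)) (half_pos hη)
  have h2 : ∀ x : Y, ∃ z ∈ t, dist x z < η / 2 := fun x => by
    obtain ⟨z, hz, hxz⟩ := mem_iUnion₂.1 (ht (mem_univ x))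
    exact ⟨z, hz, hxz⟩
  choose c' hct hc using h2
  obtain ⟨m, hm⟩ : ∃ m, m = htf.toFinset.card := ⟨_, rfl⟩
  obtain ⟨ℓ0, hℓ0⟩ := core C hD (K * m)
  refine ⟨ℓ0 + (L + τ + τ) + 1, fun n hn => ?_⟩
  obtain ⟨ℓ, hℓ⟩ : ∃ ℓ, n = L + τ + ℓ + τ := ⟨n - (L + τ + τ), by omega⟩
  have hn1 : 1 ≤ n := by omega
  have hfin := fin_per C.exg hn1
  have hcol : ∀ z ∈ htf.toFinset,
      (K * m) * (hfin.toFinset.filter fun y => c' (g^[ℓ] y) = z).card ≤ Pn f n := by
    intro z _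
    have h3 := hℓ0 ℓ (by omega) (hfin.toFinset.filter fun y => c' (g^[ℓ] y) = z) ?_
    · rw [← hℓ] at h3
      exact h3
    · intro p hp p' hp' hne
      rw [Finset.mem_filter, hfin.mem_toFinset] at hp hp'
      obtain ⟨k, hk, hd⟩ := per_sep C.exg hn1 hp.1 hp'.1 hne
      by_cases hkl : k ≤ ℓ
      · exact ⟨k, hkl, hv.trans_lt hd⟩
      exfalso
      have h4 : dist (g^[ℓ] p) (g^[ℓ] p') < η := by
        have h5 := hc (g^[ℓ] p)
        have h6 := hc (g^[ℓ] p')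
        rw [hp.2] at h5
        rw [hp'.2] at h6
        have := dist_triangle_right (g^[ℓ] p) (g^[ℓ] p') z
        linarith
      have h7 := h1 _ _ h4 (k - ℓ) (by omega)
      rw [← Function.iterate_add_apply, ← Function.iterate_add_apply] at h7
      have h8 : k - ℓ + ℓ = k := by omega
      rw [h8] at h7
      linarith
  have h3 : hfin.toFinset.card = ∑ z ∈ htf.toFinset,
      (hfin.toFinset.filter fun y => c' (g^[ℓ] y) = z).card :=
    Finset.card_eq_sum_card_fiberwise fun y _ => htf.mem_toFinset.2 (hct _)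
  have h4 : Pn g n = hfin.toFinset.card := Set.ncard_eq_toFinset_card _ hfin
  have h5 : (K * m) * Pn g n ≤ m * Pn f n := by
    rw [h4, h3, Finset.mul_sum]
    calc _ ≤ ∑ _z ∈ htf.toFinset, Pn f n := Finset.sum_le_sum hcol
      _ = m * Pn f n := by rw [Finset.sum_const, smul_eq_mul, hm]
  rcases Nat.eq_zero_or_pos m with h0 | h0
  · have h6 : Pn g n = 0 := by
      rw [h4, h3]
      have : htf.toFinset = ∅ := Finset.card_eq_zero.1 (by omega)
      rw [this, Finset.sum_empty]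
    rw [h6, Nat.mul_zero]
    exact Nat.zero_le _
  · refine Nat.le_of_mul_le_mul_left ?_ h0
    calc m * (K * Pn g n) = (K * m) * Pn g n := by ring
      _ ≤ _ := h5

/-- closed chains through an orbit segment: separated sets are not larger than the number of
periodic points -/
theorem sep_le_per [CompactSpace X] {f : X ≃ₜ X} {e ε δ v : ℝ} (hE : Ex f e) (hδ : 0 ≤ δ)
    (cl : ∀ n : ℕ, 1 ≤ n → ∀ q : ℕ → X, (∀ k < n, dist (f (q k)) (q (k + 1)) ≤ δ) → q n = q 0 →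
      ∃ p, f^[n] p = p ∧ ∀ k ≤ n, dist (q k) (f^[k] p) ≤ ε)
    {τ : ℕ} (hM : Mx f δ τ) (hτ : 1 ≤ τ) (hv : 2 * ε ≤ v) (ℓ : ℕ) (S : Finset X)
    (hS : Sp f ℓ v S) : S.card ≤ Pn f (ℓ + τ) := by
  classical
  have h1 : ∀ w : X, ∃ p, f^[ℓ + τ] p = p ∧ ∀ k ≤ ℓ, dist (f^[k] w) (f^[k] p) ≤ ε := by
    intro w
    obtain ⟨c, c1, c2, c3⟩ := hM (f^[ℓ] w) w
    have e1 : (fun k => f^[k] w) ℓ = c 0 := c2.symm
    have p1 : Pth f δ (ℓ + τ) (cat ℓ (fun k => f^[k] w) c) := (pth_orbit f hδ ℓ w).cat c1 e1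
    obtain ⟨p, hp, hp'⟩ := cl (ℓ + τ) (by omega) _ p1 (by
      rw [cat_ge e1, cat_le _ _ (Nat.zero_le _), c3]
      rfl)
    refine ⟨p, hp, fun k hk => ?_⟩
    have := hp' k (by omega)
    rwa [cat_le _ _ hk] at this
  choose p hp hp' using h1
  have hfin := fin_per hE (show 1 ≤ ℓ + τ by omega)
  rw [Pn, Set.ncard_eq_toFinset_card _ hfin]
  refine Finset.card_le_card_of_injOn p (fun w _ => by simpa using hp w) ?_
  intro w hw w' hw' he
  by_contra hne
  obtain ⟨t, ht, h2⟩ := hS w hw w' hw' hne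
  have h3 := hp' w t ht
  have h4 := hp' w' t ht
  rw [he] at h3
  have := dist_triangle_right (f^[t] w) (f^[t] w') (f^[t] (p w'))
  linarith

/-- supermultiplicativity -/
theorem per_mul [CompactSpace X] {f : X ≃ₜ X} {e ε δ : ℝ} (hE : Ex f e) (hδ : 0 ≤ δ)
    (hε : 2 * ε ≤ e)
    (cl : ∀ n : ℕ, 1 ≤ n → ∀ q : ℕ → X, (∀ k < n, dist (f (q k)) (q (k + 1)) ≤ δ) → q n = q 0 →
      ∃ p, f^[n] p = p ∧ ∀ k ≤ n, dist (q k) (f^[k] p) ≤ ε)
    {τ : ℕ} (hM : Mx f δ τ) {a b : ℕ} (ha : 1 ≤ a) (hb : 1 ≤ b) :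
    Pn f a * Pn f b ≤ Pn f (a + τ + b + τ) := by
  classical
  have h1 : ∀ w : X × X, ∃ p, f^[a + τ + b + τ] p = p ∧
      (∀ k ≤ a, dist (f^[k] w.1) (f^[k] p) ≤ ε) ∧
      ∀ k ≤ b, dist (f^[k] w.2) (f^[a + τ + k] p) ≤ ε := by
    rintro ⟨w, w'⟩
    obtain ⟨c, c1, c2, c3⟩ := hM (f^[a] w) w'
    obtain ⟨d, d1, d2, d3⟩ := hM (f^[b] w') w
    have e1 : (fun k => f^[k] w) a = c 0 := c2.symm
    have p1 := (pth_orbit f hδ a w).cat c1 e1
    have e2 : cat a (fun k => f^[k] w) c (a + τ) = (fun k => f^[k] w') 0 := by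
      rw [cat_ge e1, c3]; rfl
    have p2 := p1.cat (pth_orbit f hδ b w') e2
    have e3 : cat (a + τ) (cat a (fun k => f^[k] w) c) (fun k => f^[k] w') (a + τ + b) = d 0 := by
      rw [cat_ge e2]; exact d2.symm
    have p3 := p2.cat d1 e3
    obtain ⟨p, hp, hp'⟩ := cl (a + τ + b + τ) (by omega) _ p3 (by
      rw [cat_ge e3, cat_le _ _ (Nat.zero_le _), cat_le _ _ (Nat.zero_le _),
        cat_le _ _ (Nat.zero_le _), d3]
      rfl)
    refine ⟨p, hp, fun k hk => ?_, fun k hk => ?_⟩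
    · have := hp' k (by omega)
      rwa [cat_le _ _ (by omega), cat_le _ _ (by omega), cat_le _ _ hk] at this
    · have := hp' (a + τ + k) (by omega)
      rwa [cat_le _ _ (by omega), cat_ge e2] at this
  choose p hp hp1 hp2 using h1
  have hfin := fin_per hE (show 1 ≤ a + τ + b + τ by omega)
  have hfa := fin_per hE ha
  have hfb := fin_per hE hb
  rw [Pn, Pn, Pn, Set.ncard_eq_toFinset_card _ hfin, Set.ncard_eq_toFinset_card _ hfa,
    Set.ncard_eq_toFinset_card _ hfb, ← Finset.card_product]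
  refine Finset.card_le_card_of_injOn p (fun w _ => by simpa using hp w) ?_
  rintro ⟨w, z⟩ hw ⟨w', z'⟩ hw' he
  simp only [Finset.coe_product, Set.mem_prod, Set.Finite.coe_toFinset] at hw hw'
  have a1 : w = w' := by
    by_contra hne
    obtain ⟨t, ht, h2⟩ := per_sep hE ha hw.1 hw'.1 hne
    have h3 := hp1 (w, z) t ht.le
    have h4 := hp1 (w', z') t ht.le
    rw [he] at h3
    have := dist_triangle_right (f^[t] w) (f^[t] w') (f^[t] (p (w', z')))
    simp only at h3 h4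
    linarith
  have a2 : z = z' := by
    by_contra hne
    obtain ⟨t, ht, h2⟩ := per_sep hE hb hw.2 hw'.2 hne
    have h3 := hp2 (w, z) t ht.le
    have h4 := hp2 (w', z') t ht.le
    rw [he] at h3
    have := dist_triangle_right (f^[t] z) (f^[t] z') (f^[a + τ + t] (p (w', z')))
    simp only at h3 h4
    linarith
  rw [a1, a2]

theorem per_pow [CompactSpace X] {f : X ≃ₜ X} {e ε δ : ℝ} (hE : Ex f e) (hδ : 0 ≤ δ)
    (hε : 2 * ε ≤ e)
    (cl : ∀ n : ℕ, 1 ≤ n → ∀ q : ℕ → X, (∀ k < n, dist (f (q k)) (q (k + 1)) ≤ δ) → q n = q 0 →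
      ∃ p, f^[n] p = p ∧ ∀ k ≤ n, dist (q k) (f^[k] p) ≤ ε)
    {τ : ℕ} (hM : Mx f δ τ) {a : ℕ} (ha : 1 ≤ a) (j : ℕ) :
    Pn f a ^ (j + 1) ≤ Pn f (j * (a + 2 * τ) + a) := by
  induction j with
  | zero => simp
  | succ j ih =>
    rw [pow_succ]
    calc _ ≤ Pn f (j * (a + 2 * τ) + a) * Pn f a := Nat.mul_le_mul_right _ ih
      _ ≤ _ := per_mul hE hδ hε cl hM (by omega) ha
      _ = _ := by congr 1; ring

end Pool.Agent.Y331.EP
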