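import Pool.Agent.H74.G.R_seed8.Y331.EP.Base
import Pool.Agent.H74.G.R_seed8.Y331.EP.Lin

/-!
# Many periodic points over a factor with a pair of segments with the same image
-/

set_option autoImplicit false
set_option linter.unusedSectionVars false

open Filter Topology Set

namespace Pool.Agent.Y331.EP

variable {X Y : Type*} [MetricSpace X] [MetricSpace Y]

/-- `δ`-paths of length `n` -/
def Pth (f : X → X) (δ : ℝ) (n : ℕ) (q : ℕ → X) : Prop := ∀ k < n, dist (f (q k)) (q (k + 1)) ≤ δ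

/-- any two points are joined by `δ`-paths of length `τ` -/
def Mx (f : X → X) (δ : ℝ) (τ : ℕ) : Prop := ∀ u v : X, ∃ q : ℕ → X, Pth f δ τ q ∧ q 0 = u ∧ q τ = v

/-- concatenation -/
def cat (a : ℕ) (q1 q2 : ℕ → X) (k : ℕ) : X := if k ≤ a then q1 k else q2 (k - a)

theorem cat_le {a k : ℕ} (q1 q2 : ℕ → X) (h : k ≤ a) : cat a q1 q2 k = q1 k := if_pos h

theorem cat_ge {a : ℕ} {q1 q2 : ℕ → X} (e : q1 a = q2 0) (k : ℕ) : cat a q1 q2 (a + k) = q2 k := by
  by_cases h : k = 0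
  · subst h
    rw [add_zero, cat_le _ _ le_rfl, e]
  · rw [cat, if_neg (by omega)]
    congr 1
    omega

theorem Pth.cat {f : X → X} {δ : ℝ} {a b : ℕ} {q1 q2 : ℕ → X} (h1 : Pth f δ a q1)
    (h2 : Pth f δ b q2) (e : q1 a = q2 0) : Pth f δ (a + b) (cat a q1 q2) := by
  intro k hk
  by_cases h : k < a
  · rw [cat_le _ _ h.le, cat_le _ _ h]
    exact h1 k h
  · obtain ⟨j, rfl⟩ := Nat.exists_eq_add_of_le (not_lt.1 h)
    rw [cat_ge e, add_assoc, cat_ge e]
    exact h2 j (by omega)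

theorem pth_orbit (f : X → X) {δ : ℝ} (hδ : 0 ≤ δ) (n : ℕ) (w : X) :
    Pth f δ n fun k => f^[k] w := fun k _ => by
  show dist (f (f^[k] w)) (f^[k + 1] w) ≤ δ
  rw [Function.iterate_succ_apply', dist_self]
  exact hδ

/-- two segments with the same image and with close end points -/
structure Dia (f : X ≃ₜ X) (h : X → Y) (δ s : ℝ) (x0 y0 : X) (L c : ℕ) : Prop where
  hc : 0 < c
  cL : c < L
  d0 : dist (f x0) (f y0) ≤ δ
  dL : dist (f^[L] x0) (f^[L] y0) ≤ δ
  hxy : h x0 = h y0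
  sep : s < dist (f^[c] x0) (f^[c] y0)

theorem semi_iter {f : X ≃ₜ X} {g : Y ≃ₜ Y} {h : X → Y} (hh : ∀ x, h (f x) = g (h x)) (n : ℕ)
    (x : X) : h (f^[n] x) = g^[n] (h x) :=
  (Function.Semiconj.iterate_right (f := h) (ga := f) (gb := g) hh n) x

/-- the two closed pseudo-orbits -/
theorem exists_pair {f : X ≃ₜ X} {g : Y ≃ₜ Y} {h : X → Y} (hh : ∀ x, h (f x) = g (h x))
    {δ s : ℝ} (hδ : 0 ≤ δ) {x0 y0 : X} {L c τ : ℕ} (hD : Dia f h δ s x0 y0 L c) (hM : Mx f δ τ)
    (ℓ : ℕ) (w : X) : ∃ q q' : ℕ → X, Pth f δ (L + τ + ℓ + τ) q ∧ Pth f δ (L + τ + ℓ + τ) q' ∧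
      q (L + τ + ℓ + τ) = q 0 ∧ q' (L + τ + ℓ + τ) = q' 0 ∧
      (∀ t ≤ ℓ, q (L + τ + t) = f^[t] w) ∧ (∀ k, L ≤ k → q k = q' k) ∧ q 0 = q' 0 ∧
      q c = f^[c] x0 ∧ q' c = f^[c] y0 ∧ ∀ k, h (q k) = h (q' k) := by
  obtain ⟨c1, h1, h10, h11⟩ := hM (f^[L] x0) w
  obtain ⟨c2, h2, h20, h21⟩ := hM (f^[ℓ] w) x0
  have hcL := hD.cL
  have hc := hD.hc
  set W : ℕ → X := fun k => f^[k] x0 with hW
  set W' : ℕ → X := fun k => if 0 < k ∧ k < L then f^[k] y0 else f^[k] x0 with hW'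
  have hWP : Pth f δ L W := pth_orbit f hδ L x0
  have hWP' : Pth f δ L W' := by
    intro k hk
    simp only [hW']
    by_cases h0 : k = 0
    · subst h0
      rw [if_neg (by omega), if_pos (by omega)]
      exact hD.d0
    · rw [if_pos (by omega)]
      by_cases h3 : k + 1 < L
      · rw [if_pos (by omega), Function.iterate_succ_apply', dist_self]
        exact hδ
      · have h4 : k + 1 = L := by omega
        rw [if_neg (by omega), ← Function.iterate_succ_apply' (⇑f) k y0, Nat.succ_eq_add_one, h4,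
          dist_comm]
        exact hD.dL
  have eW : W L = c1 0 := h10.symm
  have eW' : W' L = c1 0 := by simp only [hW', lt_irrefl, and_false, if_false]; exact h10.symm
  -- the common structure
  have key : ∀ V : ℕ → X, Pth f δ L V → V L = c1 0 → V 0 = x0 → ∀ q : ℕ → X,
      q = Pool.Agent.Y331.EP.cat (L + τ + ℓ) (Pool.Agent.Y331.EP.cat (L + τ)
        (Pool.Agent.Y331.EP.cat L V c1) (fun k => f^[k] w)) c2 →
      Pth f δ (L + τ + ℓ + τ) q ∧ q (L + τ + ℓ + τ) = q 0 ∧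
      (∀ t ≤ ℓ, q (L + τ + t) = f^[t] w) ∧ (∀ k ≤ L, q k = V k) := by
    intro V hV hVL hV0 q hq
    have e1 : Pool.Agent.Y331.EP.cat L V c1 (L + τ) = (fun k => f^[k] w) 0 := by
      rw [cat_ge hVL]; exact h11
    have e2 : Pool.Agent.Y331.EP.cat (L + τ) (Pool.Agent.Y331.EP.cat L V c1)
        (fun k => f^[k] w) (L + τ + ℓ) = c2 0 := by
      rw [cat_ge e1]; exact h20.symm
    have p1 : Pth f δ (L + τ) (Pool.Agent.Y331.EP.cat L V c1) := hV.cat h1 hVL
    have p2 := p1.cat (pth_orbit f hδ ℓ w) e1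
    have p3 := p2.cat h2 e2
    subst hq
    refine ⟨p3, ?_, fun t ht => ?_, fun k hk => ?_⟩
    · rw [cat_ge e2, cat_le _ _ (Nat.zero_le _), cat_le _ _ (Nat.zero_le _),
        cat_le _ _ (Nat.zero_le _), h21, hV0]
    · rw [cat_le _ _ (by omega), cat_ge e1]
    · rw [cat_le _ _ (by omega), cat_le _ _ (by omega), cat_le _ _ hk]
  have hW0 : W 0 = x0 := rfl
  have hW0' : W' 0 = x0 := by simp only [hW', lt_irrefl, false_and, if_false]; rfl
  obtain ⟨a1, a2, a3, a4⟩ := key W hWP eW hW0 _ rfl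
  obtain ⟨b1, b2, b3, b4⟩ := key W' hWP' eW' hW0' _ rfl
  refine ⟨_, _, a1, b1, a2, b2, a3, ?_, ?_, ?_, ?_, ?_⟩
  · intro k hk
    obtain ⟨j, rfl⟩ := Nat.exists_eq_add_of_le hk
    have e0 : ∀ V : ℕ → X, V L = c1 0 → ∀ i, Pool.Agent.Y331.EP.cat L V c1 (L + i) = c1 i :=
      fun V hV i => cat_ge hV i
    have e1 : ∀ i, Pool.Agent.Y331.EP.cat L W c1 (L + i) =
        Pool.Agent.Y331.EP.cat L W' c1 (L + i) := fun i => by rw [e0 W eW, e0 W' eW']
    unfold Pool.Agent.Y331.EP.cat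
    by_cases k1 : L + j ≤ L + τ + ℓ
    · rw [if_pos k1, if_pos k1]
      by_cases k2 : L + j ≤ L + τ
      · rw [if_pos k2, if_pos k2]
        exact e1 j
      · rw [if_neg k2, if_neg k2]
    · rw [if_neg k1, if_neg k1]
  · rw [a4 0 (Nat.zero_le _), b4 0 (Nat.zero_le _), hW0, hW0']
  · rw [a4 c hcL.le]
  · rw [b4 c hcL.le]
    simp only [hW', hc, hcL, and_self, if_true]
  · intro k
    by_cases hk : k ≤ L
    · rw [a4 k hk, b4 k hk]
      simp only [hW, hW']
      split_ifs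
      · rw [semi_iter hh, semi_iter hh, hD.hxy]
      · rfl
    · have e1 : Pool.Agent.Y331.EP.cat (L + τ + ℓ) (Pool.Agent.Y331.EP.cat (L + τ)
          (Pool.Agent.Y331.EP.cat L W c1) (fun k => f^[k] w)) c2 k =
          Pool.Agent.Y331.EP.cat (L + τ + ℓ) (Pool.Agent.Y331.EP.cat (L + τ)
          (Pool.Agent.Y331.EP.cat L W' c1) (fun k => f^[k] w)) c2 k := by
        obtain ⟨j, rfl⟩ := Nat.exists_eq_add_of_le (not_le.1 hk).le
        unfold Pool.Agent.Y331.EP.cat
        by_cases k1 : L + j ≤ L + τ + ℓ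
        · rw [if_pos k1, if_pos k1]
          by_cases k2 : L + j ≤ L + τ
          · rw [if_pos k2, if_pos k2, if_neg hk, if_neg hk]
          · rw [if_neg k2, if_neg k2]
        · rw [if_neg k1, if_neg k1]
      rw [e1]

/-- The constants. -/
structure Cs (f : X ≃ₜ X) (g : Y ≃ₜ Y) (h : X → Y) (ef eg ε δ ν s v : ℝ) (τ : ℕ) : Prop where
  exf : Ex f ef
  exg : Ex g eg
  hh : ∀ x, h (f x) = g (h x)
  surj : Function.Surjective h
  ε_pos : 0 < ε
  ε_ef : 2 * ε ≤ ef
  ε_s : 2 * ε < s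
  δ_pos : 0 ≤ δ
  cl : ∀ n : ℕ, 1 ≤ n → ∀ q : ℕ → X, (∀ k < n, dist (f (q k)) (q (k + 1)) ≤ δ) → q n = q 0 →
    ∃ p, f^[n] p = p ∧ ∀ k ≤ n, dist (q k) (f^[k] p) ≤ ε
  md : ∀ x x' : X, dist x x' ≤ ε → dist (h x) (h x') ≤ ν
  ν_v : 2 * ν ≤ v
  ν_eg : 2 * ν ≤ eg
  mx : Mx f δ τ

/-- the two periodic points -/
theorem exists_per {f : X ≃ₜ X} {g : Y ≃ₜ Y} {h : X → Y} {ef eg ε δ ν s v : ℝ} {τ : ℕ}
    (C : Cs f g h ef eg ε δ ν s v τ) {x0 y0 : X} {L c : ℕ} (hD : Dia f h δ s x0 y0 L c)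
    (ℓ : ℕ) (z : Y) : ∃ p p' : X, f^[L + τ + ℓ + τ] p = p ∧ f^[L + τ + ℓ + τ] p' = p' ∧
      dist (f^[c] x0) (f^[c] p) ≤ ε ∧ dist (f^[c] y0) (f^[c] p') ≤ ε ∧
      (∀ k, L ≤ k → k ≤ L + τ + ℓ + τ → dist (f^[k] p) (f^[k] p') ≤ 2 * ε) ∧
      (∀ t ≤ ℓ, dist (g^[t] z) (g^[L + τ + t] (h p)) ≤ ν) ∧ h p = h p' := by
  obtain ⟨w, rfl⟩ := C.surj z
  obtain ⟨q, q', a1, a2, a3, a4, a5, a6, a7, a8, a9, a10⟩ :=
    exists_pair C.hh C.δ_pos hD C.mx ℓ w
  have hn : 1 ≤ L + τ + ℓ + τ := by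
    have h1 := hD.hc
    have h2 := hD.cL
    omega
  have hcL := hD.cL
  obtain ⟨p, b1, b2⟩ := C.cl _ hn q a1 a3
  obtain ⟨p', b1', b2'⟩ := C.cl _ hn q' a2 a4
  refine ⟨p, p', b1, b1', ?_, ?_, ?_, ?_, ?_⟩
  · rw [← a8]; exact b2 c (by omega)
  · rw [← a9]; exact b2' c (by omega)
  · intro k hk hk'
    have h1 := b2 k hk'
    have h2 := b2' k hk'
    rw [← a6 k hk] at h2
    have h3 := dist_triangle_left (f^[k] p) (f^[k] p') (q k)
    linarith
  · intro t ht
    rw [← semi_iter C.hh, ← semi_iter C.hh, ← a5 t ht]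
    exact C.md _ _ (b2 _ (by omega))
  · refine per_eq C.exg hn (n := L + τ + ℓ + τ) ?_ ?_ ?_
    · rw [← semi_iter C.hh, b1]
    · rw [← semi_iter C.hh, b1']
    · intro k hk
      rw [← semi_iter C.hh, ← semi_iter C.hh]
      have h1 := C.md _ _ (b2 k hk.le)
      have h2 := C.md _ _ (b2' k hk.le)
      rw [← a10 k] at h2
      have h3 := dist_triangle_left (h (f^[k] p)) (h (f^[k] p')) (h (q k))
      have h4 := C.ν_eg
      linarith

/-- separated sets in compact spaces are finite -/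
theorem finite_of_sep [CompactSpace X] {S : Set X} {η : ℝ} (hη : 0 < η)
    (h : ∀ p ∈ S, ∀ p' ∈ S, dist p p' < η → p = p') : S.Finite := by
  obtain ⟨t, -, htf, ht⟩ := finite_cover_balls_of_compact (isCompact_univ (X := X))
    (half_pos hη)
  have h1 : S ⊆ ⋃ y ∈ t, (S ∩ Metric.ball y (η / 2)) := by
    intro p hp
    obtain ⟨y, hy, hyp⟩ := mem_iUnion₂.1 (ht (mem_univ p))
    exact mem_iUnion₂.2 ⟨y, hy, hp, hyp⟩
  refine (htf.biUnion fun y _ => ?_).subset h1
  refine Set.Subsingleton.finite ?_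
  rintro a ⟨ha, ha'⟩ b ⟨hb, hb'⟩
  refine h a ha b hb ?_
  rw [Metric.mem_ball] at ha' hb'
  have := dist_triangle_right a b y
  linarith

theorem fin_per [CompactSpace X] {f : X ≃ₜ X} {e : ℝ} (h : Ex f e) {n : ℕ} (hn : 1 ≤ n) :
    {p : X | f^[n] p = p}.Finite := by
  have h1 : ∀ k : ℕ, ∃ η > 0, ∀ x y : X, dist x y < η → dist (f^[k] x) (f^[k] y) < e := by
    intro k
    have h2 : UniformContinuous (f^[k] : X → X) :=
      CompactSpace.uniformContinuous_of_continuous (f.continuous.iterate k)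
    obtain ⟨η, hη, h3⟩ := Metric.uniformContinuous_iff.1 h2 e h.pos
    exact ⟨η, hη, fun x y hxy => h3 hxy⟩
  choose η hη h2 using h1
  have hne : (Finset.range n).Nonempty := ⟨0, Finset.mem_range.2 (by omega)⟩
  refine finite_of_sep (η := (Finset.range n).inf' hne η) ?_ ?_
  · rw [Finset.lt_inf'_iff]
    exact fun k _ => hη k
  · intro p hp p' hp' hd
    refine per_eq h hn hp hp' fun k hk => ?_
    exact (h2 k p p' (hd.trans_le (Finset.inf'_le _ (Finset.mem_range.2 hk)))).le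

theorem dist_lip {a b y : X} {θ : ℝ} (h : dist a b ≤ θ) : |dist a y - dist b y| ≤ θ := by
  have h1 := dist_triangle a b y
  have h2 := dist_triangle b a y
  rw [dist_comm b a] at h2
  rw [abs_le]
  constructor <;> linarith

/-- **The main count.** -/
theorem core [CompactSpace X] {f : X ≃ₜ X} {g : Y ≃ₜ Y} {h : X → Y} {ef eg ε δ ν s v : ℝ}
    {τ : ℕ} (C : Cs f g h ef eg ε δ ν s v τ) {x0 y0 : X} {L c : ℕ}
    (hD : Dia f h δ s x0 y0 L c) (K : ℕ) : ∃ ℓ0 : ℕ, ∀ ℓ ≥ ℓ0, ∀ S : Finset Y,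
    (∀ z ∈ S, ∀ z' ∈ S, z ≠ z' → ∃ t ≤ ℓ, v < dist (g^[t] z) (g^[t] z')) →
    K * S.card ≤ {p : X | f^[L + τ + ℓ + τ] p = p}.ncard := by
  classical
  have hs := C.ε_s
  have hcL := hD.cL
  have hc0 := hD.hc
  obtain ⟨θ, hθ0, hθ⟩ : ∃ θ > 0, ((K : ℝ) + 1) * θ < s - 2 * ε := by
    refine ⟨(s - 2 * ε) / (2 * ((K : ℝ) + 1)), by apply div_pos <;> [linarith; positivity], ?_⟩
    rw [mul_div_assoc', div_lt_iff₀ (by positivity)]
    have : (0 : ℝ) < (K : ℝ) + 1 := by positivity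
    nlinarith
  obtain ⟨T, hT⟩ := unif_nat C.exf hθ0
  refine ⟨K * (L + T) + L + T + 1, fun ℓ hℓ S hS => ?_⟩
  obtain ⟨n, hn⟩ : ∃ n, n = L + τ + ℓ + τ := ⟨_, rfl⟩
  rw [← hn]
  obtain ⟨B, hB⟩ : ∃ B, B = L + T := ⟨_, rfl⟩
  have hnB : K * B + L + T + 1 ≤ n := by rw [hB]; omega
  choose p p' a1 a2 a3 a4 a5 a6 a7 using fun z : Y => exists_per C hD ℓ z
  rw [← hn] at a1 a2 a5
  have hfin := fin_per C.exf (show 1 ≤ n by omega)
  have hiB : ∀ i : Fin K, (i : ℕ) * B + B ≤ K * B := by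
    intro i
    have h1 : ((i : ℕ) + 1) * B ≤ K * B := Nat.mul_le_mul_right _ i.2
    rwa [add_mul, one_mul] at h1
  -- iterates of periodic points
  have hper : ∀ q : X, f^[n] q = q → ∀ i : ℕ, f^[n] (f^[i] q) = f^[i] q := by
    intro q hq i
    rw [← Function.iterate_add_apply, add_comm, Function.iterate_add_apply, hq]
  -- close times
  have hclose : ∀ (z : Y) (t : ℕ), L + T ≤ t → t + T ≤ n →
      dist (f^[t] (p z)) (f^[t] (p' z)) ≤ θ := by
    intro z t h1 h2
    have h3 := hT (f^[t - T] (p z)) (f^[t - T] (p' z)) fun k hk => by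
      rw [← Function.iterate_add_apply, ← Function.iterate_add_apply]
      exact (a5 z _ (by omega) (by omega)).trans C.ε_ef
    rw [← Function.iterate_add_apply, ← Function.iterate_add_apply] at h3
    have h4 : T + (t - T) = t := by omega
    rwa [h4] at h3
  set a : Fin K × S → X := fun t => f^[n - (t.1 : ℕ) * B] (p t.2) with ha
  set b : Fin K × S → X := fun t => f^[n - (t.1 : ℕ) * B] (p' t.2) with hb
  have hae : ∀ t, f^[n] (a t) = a t := fun t => hper _ (a1 _) _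
  have hbe : ∀ t, f^[n] (b t) = b t := fun t => hper _ (a2 _) _
  have hab : ∀ t, h (a t) = h (b t) := by
    intro t
    simp only [ha, hb]
    rw [semi_iter C.hh, semi_iter C.hh, a7]
  have hinj : ∀ t t' : Fin K × S, h (a t) = h (a t') → t.1 = t'.1 → t = t' := by
    rintro ⟨i, z, hz⟩ ⟨i', z', hz'⟩ h1 h2
    have h2' : i = i' := h2
    subst h2'
    simp only [ha] at h1
    rw [semi_iter C.hh, semi_iter C.hh] at h1
    have h3 : h (p z) = h (p z') := g.injective.iterate _ h1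
    have h4 : z = z' := by
      by_contra hne
      obtain ⟨t, ht, h5⟩ := hS z hz z' hz' hne
      have h6 := a6 z t ht
      have h7 := a6 z' t ht
      rw [h3] at h6
      have h8 := dist_triangle_right (g^[t] z) (g^[t] z') (g^[L + τ + t] (h (p z')))
      have h9 := C.ν_v
      linarith
    subst h4
    rfl
  set Z : Fin K × S → Y := fun t => h (a t) with hZ
  have hcard : (Finset.univ : Finset (Fin K × S)).card = K * S.card := by
    rw [Finset.card_univ, Fintype.card_prod, Fintype.card_fin, Fintype.card_coe]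
  -- one fibre
  have hfib : ∀ ζ : Y, (Finset.univ.filter fun t => Z t = ζ).card ≤
      (hfin.toFinset.filter fun q => h q = ζ).card := by
    intro ζ
    have h1 := card_le_of_diag (ι := {t : Fin K × S // Z t = ζ})
      (ρ := {q : X // q ∈ hfin.toFinset.filter fun q => h q = ζ})
      (a := fun t => ⟨a t.1, by
        rw [Finset.mem_filter, Set.Finite.mem_toFinset]
        exact ⟨hae _, t.2⟩⟩)
      (b := fun t => ⟨b t.1, by
        rw [Finset.mem_filter, Set.Finite.mem_toFinset]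
        exact ⟨hbe _, (hab _).symm.trans t.2⟩⟩)
      (F := fun r t => dist (f^[(t.1.1 : ℕ) * B + c] r.1) (f^[c] y0))
      (s := s - 2 * ε) (θ := θ) hθ0.le ?_ ?_ ?_
    · rw [Fintype.card_subtype, Fintype.card_coe] at h1
      exact h1
    · rintro ⟨t, ht⟩
      have hB1 := hiB t.1
      show s - 2 * ε ≤ dist (f^[(t.1 : ℕ) * B + c] (a t)) (f^[c] y0) -
        dist (f^[(t.1 : ℕ) * B + c] (b t)) (f^[c] y0)
      have e1 : ∀ q : X, f^[n] q = q → f^[(t.1 : ℕ) * B + c] (f^[n - (t.1 : ℕ) * B] q) =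
          f^[c] q := by
        intro q hq
        rw [← Function.iterate_add_apply]
        have : (t.1 : ℕ) * B + c + (n - (t.1 : ℕ) * B) = c + n := by omega
        rw [this, Function.iterate_add_apply, hq]
      simp only [ha, hb]
      rw [e1 _ (a1 _), e1 _ (a2 _)]
      have h2 := a3 t.2
      have h3 := a4 t.2
      have h4 := hD.sep
      have h5 := dist_triangle (f^[c] x0) (f^[c] (p t.2)) (f^[c] y0)
      rw [dist_comm (f^[c] y0)] at h3
      linarith
    · rintro ⟨t, ht⟩ ⟨t', ht'⟩ hne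
      have hne' : t.1 ≠ t'.1 := by
        intro h2
        apply hne
        exact Subtype.ext (hinj t t' (ht.trans ht'.symm) h2)
      have hB1 := hiB t.1
      have hB2 := hiB t'.1
      show |dist (f^[(t'.1 : ℕ) * B + c] (a t)) (f^[c] y0) -
        dist (f^[(t'.1 : ℕ) * B + c] (b t)) (f^[c] y0)| ≤ θ
      apply dist_lip
      rcases lt_or_gt_of_ne (fun h2 => hne' (Fin.ext h2) : (t.1 : ℕ) ≠ t'.1) with h2 | h2
      · -- later window
        obtain ⟨j, hj⟩ := Nat.exists_eq_add_of_lt h2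
        have e1 : ∀ q : X, f^[n] q = q → f^[(t'.1 : ℕ) * B + c] (f^[n - (t.1 : ℕ) * B] q) =
            f^[c + (j + 1) * B] q := by
          intro q hq
          rw [← Function.iterate_add_apply]
          have : (t'.1 : ℕ) * B + c + (n - (t.1 : ℕ) * B) = c + (j + 1) * B + n := by
            rw [hj]
            have : ((t.1 : ℕ) + j + 1) * B = (t.1 : ℕ) * B + (j + 1) * B := by ring
            omega
          rw [this, Function.iterate_add_apply, hq]
        simp only [ha, hb]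
        rw [e1 _ (a1 _), e1 _ (a2 _)]
        have h3 : (t'.1 : ℕ) * B = (t.1 : ℕ) * B + (j + 1) * B := by rw [hj]; ring
        have h4 : B ≤ (j + 1) * B := Nat.le_mul_of_pos_left _ (by omega)
        apply hclose
        · omega
        · omega
      · -- earlier window
        obtain ⟨j, hj⟩ := Nat.exists_eq_add_of_lt h2
        have h3 : (t.1 : ℕ) * B = (t'.1 : ℕ) * B + (j + 1) * B := by rw [hj]; ring
        have h4 : B ≤ (j + 1) * B := Nat.le_mul_of_pos_left _ (by omega)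
        simp only [ha, hb]
        rw [← Function.iterate_add_apply, ← Function.iterate_add_apply]
        have h5 : (t'.1 : ℕ) * B + c + (n - (t.1 : ℕ) * B) = n + c - (j + 1) * B := by omega
        rw [h5]
        apply hclose
        · omega
        · omega
    · have h2 : Fintype.card {t : Fin K × S // Z t = ζ} ≤ K := by
        have h3 : Function.Injective fun t : {t : Fin K × S // Z t = ζ} => t.1.1 := by
          rintro ⟨t, ht⟩ ⟨t', ht'⟩ h4
          exact Subtype.ext (hinj t t' (ht.trans ht'.symm) h4)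
        have h5 := Fintype.card_le_of_injective _ h3
        rwa [Fintype.card_fin] at h5
      have h3 : (Fintype.card {t : Fin K × S // Z t = ζ} : ℝ) ≤ K := by exact_mod_cast h2
      calc (Fintype.card {t : Fin K × S // Z t = ζ} : ℝ) * θ ≤ ((K : ℝ) + 1) * θ := by
            apply mul_le_mul_of_nonneg_right _ hθ0.le
            linarith
        _ < s - 2 * ε := hθ
  rw [Set.ncard_eq_toFinset_card _ hfin, ← hcard,
    Finset.card_eq_sum_card_image Z Finset.univ]
  calc ∑ ζ ∈ Finset.univ.image Z, (Finset.univ.filter fun t => Z t = ζ).card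
      ≤ ∑ ζ ∈ Finset.univ.image Z, (hfin.toFinset.filter fun q => h q = ζ).card :=
        Finset.sum_le_sum fun ζ _ => hfib ζ
    _ = ((Finset.univ.image Z).biUnion fun ζ => hfin.toFinset.filter fun q => h q = ζ).card := by
        rw [Finset.card_biUnion]
        intro ζ _ ζ' _ hne
        rw [Function.onFun, Finset.disjoint_filter]
        intro q _ h1 h2
        exact hne (h1.symm.trans h2)
    _ ≤ hfin.toFinset.card := Finset.card_le_card fun q hq => by
        obtain ⟨ζ, -, h1⟩ := Finset.mem_biUnion.1 hq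
        exact (Finset.mem_filter.1 h1).1

end Pool.Agent.Y331.EP
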