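import Pool.Agent.H74.G.R_seed8.Y331.EP.Cnt

/-!
# Topological entropy of expansive homeomorphisms
-/

set_option autoImplicit false
set_option linter.unusedSectionVars false

open Filter Topology Set
open scoped Uniformity SetRel

namespace Pool.Agent.Y331.EP

variable {X Y : Type*} [MetricSpace X] [MetricSpace Y]

/-- the closed entourage -/
def Cl (Y : Type*) [MetricSpace Y] (r : ℝ) : SetRel Y Y := {p | dist p.1 p.2 ≤ r}

theorem mem_Cl {r : ℝ} {x y : Y} : (x, y) ∈ Cl Y r ↔ dist x y ≤ r := Iff.rfl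

instance (r : ℝ) : (Cl Y r).IsSymm := ⟨fun x y h => by
  rw [mem_Cl] at h ⊢
  rwa [dist_comm]⟩

theorem Cl_comp (r : ℝ) : Cl Y (r / 2) ○ Cl Y (r / 2) ⊆ Cl Y r := by
  rintro ⟨x, y⟩ ⟨z, h1, h2⟩
  rw [mem_Cl] at h1 h2 ⊢
  have := dist_triangle x z y
  linarith

theorem Cl_unif {r : ℝ} (hr : 0 < r) : (Cl Y r : Set (Y × Y)) ∈ 𝓤 Y :=
  mem_of_superset (Metric.dist_mem_uniformity hr) fun p hp => by
    have h : dist p.1 p.2 < r := hp
    exact h.le

/-- maximal separated sets -/
theorem exists_max_sep [CompactSpace Y] (g : Y ≃ₜ Y) (ℓ : ℕ) {v : ℝ} (hv : 0 < v) :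
    ∃ S : Finset Y, Sp g ℓ v S ∧ ∀ y : Y, ∃ z ∈ S, ∀ t ≤ ℓ, dist (g^[t] y) (g^[t] z) ≤ v := by
  classical
  obtain ⟨η, hη, h1⟩ := unif_iter g ℓ hv
  set P : Set (Set Y) := {S | ∀ z ∈ S, ∀ z' ∈ S, z ≠ z' → ∃ t ≤ ℓ, v < dist (g^[t] z) (g^[t] z')}
    with hP
  obtain ⟨S, hS⟩ := zorn_subset P (by
    intro c hc hchain
    refine ⟨⋃₀ c, ?_, fun s hs => subset_sUnion_of_mem hs⟩
    rintro z ⟨s, hs, hz⟩ z' ⟨s', hs', hz'⟩ hne
    rcases hchain.total hs hs' with h | h
    · exact hc hs' z (h hz) z' hz' hne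
    · exact hc hs z hz z' (h hz') hne)
  have hSP : S ∈ P := hS.prop
  have hfin : S.Finite := finite_of_sep hη fun p hp p' hp' hd => by
    by_contra hne
    obtain ⟨t, ht, h2⟩ := hSP p hp p' hp' hne
    exact absurd (h1 p p' hd t ht) (not_le.2 h2)
  refine ⟨hfin.toFinset, fun z hz z' hz' hne => hSP z (hfin.mem_toFinset.1 hz) z'
    (hfin.mem_toFinset.1 hz') hne, fun y => ?_⟩
  by_contra hcon
  push Not at hcon
  have hcon' : ∀ z ∈ S, ∃ t ≤ ℓ, v < dist (g^[t] y) (g^[t] z) := fun z hz =>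
    hcon z (hfin.mem_toFinset.2 hz)
  have h2 : insert y S ∈ P := by
    rintro z hz z' hz' hne
    rcases mem_insert_iff.1 hz with h5 | h5 <;> rcases mem_insert_iff.1 hz' with h6 | h6
    · exact absurd (h5.trans h6.symm) hne
    · rw [h5]
      exact hcon' _ h6
    · rw [h6]
      obtain ⟨t, ht, h3⟩ := hcon' _ h5
      exact ⟨t, ht, by rwa [dist_comm]⟩
    · exact hSP z h5 z' h6 hne
  have h3 : y ∈ S := hS.le_of_ge h2 (subset_insert y S) (mem_insert y S)
  obtain ⟨t, -, h4⟩ := hcon' y h3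
  rw [dist_self] at h4
  linarith

/-- the entropy is the entropy of the expansive entourage -/
theorem ent_le_Cl [CompactSpace Y] {g : Y ≃ₜ Y} {e : ℝ} (hE : Ex g e) :
    Dynamics.coverEntropy g univ ≤ Dynamics.coverEntropyEntourage g univ (Cl Y e) := by
  classical
  refine iSup₂_le fun U hU => ?_
  obtain ⟨θ, hθ, h1⟩ := Metric.mem_uniformity_dist.1 hU
  obtain ⟨T, hT⟩ := unif_nat hE (half_pos hθ)
  have h2 : ∀ n, Dynamics.coverMincard g univ U n ≤
      Dynamics.coverMincard g univ (Cl Y e) (n + 2 * T) := by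
    intro n
    refine le_iInf₂ fun s hs => ?_
    have h3 : Dynamics.IsDynCoverOf g univ U n (s.image (g^[T]) : Finset Y) := by
      intro y _
      obtain ⟨z, hz, hyz⟩ := hs (mem_univ (g.symm^[T] y))
      refine ⟨g^[T] z, by simpa using ⟨z, hz, rfl⟩, ?_⟩
      rw [Dynamics.mem_dynEntourage] at hyz ⊢
      intro k hk
      apply h1
      have h4 := hT (g^[k] (g.symm^[T] y)) (g^[k] z) fun j hj => by
        rw [← Function.iterate_add_apply, ← Function.iterate_add_apply]
        exact hyz (j + k) (by omega)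
      rw [← Function.iterate_add_apply, ← Function.iterate_add_apply, Nat.add_comm T k,
        Function.iterate_add_apply, Function.iterate_add_apply] at h4
      have h5 : g^[T] (g.symm^[T] y) = y := by
        have : Function.LeftInverse (g^[T]) (g.symm^[T]) :=
          Function.LeftInverse.iterate g.apply_symm_apply T
        exact this y
      rw [h5] at h4
      linarith
    refine h3.coverMincard_le_card.trans ?_
    exact_mod_cast Finset.card_image_le
  have hmono : Monotone fun n => (Dynamics.coverMincard g univ (Cl Y e) n).toENNReal :=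
    fun _ _ h => ENat.toENNReal_mono (Dynamics.coverMincard_monotone_time g univ _ h)
  have hlim : Tendsto (fun n : ℕ => ((n + 2 * T : ℕ) : EReal) / n) atTop (𝓝 1) := by
    have h3 : Tendsto (fun n : ℕ => ((1 + (2 * T : ℝ) * (n : ℝ)⁻¹ : ℝ) : EReal)) atTop
        (𝓝 ((1 : ℝ) : EReal)) := by
      refine (continuous_coe_real_ereal.tendsto _).comp ?_
      have h4 : Tendsto (fun n : ℕ => (n : ℝ)⁻¹) atTop (𝓝 0) := tendsto_inv_atTop_nhds_zero_nat
      have := (h4.const_mul (2 * T : ℝ)).const_add 1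
      simpa using this
    rw [EReal.coe_one] at h3
    refine h3.congr' ?_
    filter_upwards [eventually_ge_atTop 1] with n hn
    have h4 : (n : ℝ) ≠ 0 := by
      have : n ≠ 0 := by omega
      exact_mod_cast this
    have h5 : ((n + 2 * T : ℕ) : EReal) / n = (((n + 2 * T : ℕ) : ℝ) / (n : ℝ) : ℝ) := by
      rw [EReal.coe_div]
      rfl
    rw [h5]
    congr 1
    push_cast
    field_simp
  have h3 := hmono.expGrowthSup_comp hlim one_ne_zero (by decide)
  rw [one_mul] at h3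
  rw [Dynamics.coverEntropyEntourage, Dynamics.coverEntropyEntourage, ← h3]
  exact ExpGrowth.expGrowthSup_monotone fun n => ENat.toENNReal_mono (h2 n)

/-- **Upper bound** -/
theorem ent_le_sep [CompactSpace Y] [Nonempty Y] {g : Y ≃ₜ Y} {e : ℝ} (hE : Ex g e) (ℓ : ℕ) :
    ∃ S : Finset Y, Sp g ℓ (e / 2) S ∧ S.Nonempty ∧
      Dynamics.coverEntropy g univ ≤ ((Real.log S.card / (ℓ + 1) : ℝ) : EReal) := by
  obtain ⟨S, hS1, hS2⟩ := exists_max_sep g ℓ (half_pos hE.pos)
  have hne : S.Nonempty := by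
    obtain ⟨y⟩ : Nonempty Y := inferInstance
    obtain ⟨z, hz, -⟩ := hS2 y
    exact ⟨z, hz⟩
  refine ⟨S, hS1, hne, ?_⟩
  have h1 : Dynamics.IsDynCoverOf g univ (Cl Y (e / 2)) (ℓ + 1) (S : Set Y) := by
    intro y _
    obtain ⟨z, hz, hyz⟩ := hS2 y
    refine ⟨z, hz, ?_⟩
    rw [Dynamics.mem_dynEntourage]
    intro k hk
    exact hyz k (by omega)
  have h2 := h1.coverEntropyEntourage_le_log_card_div (mapsTo_univ _ _) (by omega)
  have h3 := (ent_le_Cl hE).trans
    (Dynamics.coverEntropyEntourage_antitone g univ (Cl_comp (Y := Y) e))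
  refine (h3.trans h2).trans (le_of_eq ?_)
  have h4 : ENNReal.log (S.card : ENNReal) = ((Real.log S.card : ℝ) : EReal) := by
    rw [ENNReal.log_pos_real]
    · simp
    · have : S.card ≠ 0 := Finset.card_ne_zero.2 hne
      exact_mod_cast this
    · exact ENNReal.natCast_ne_top _
  rw [h4, EReal.coe_div]
  push_cast
  rfl

/-- periodic points form a net -/
theorem per_le_net [CompactSpace Y] {g : Y ≃ₜ Y} {e : ℝ} (hE : Ex g e) {n : ℕ} (hn : 1 ≤ n) :
    (Pn g n : ℕ∞) ≤ Dynamics.netMaxcard g univ (Cl Y (e / 2)) n := by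
  have hfin := fin_per hE hn
  rw [Pn, Set.ncard_eq_toFinset_card _ hfin]
  apply Dynamics.IsDynNetIn.card_le_netMaxcard
  refine ⟨subset_univ _, fun p hp p' hp' hne => ?_⟩
  rw [Set.Finite.coe_toFinset] at hp hp'
  obtain ⟨t, ht, h1⟩ := per_sep hE hn hp hp' hne
  rw [Function.onFun, Set.disjoint_left]
  intro z hz hz'
  rw [Dynamics.mem_ball_dynEntourage] at hz hz'
  have h2 : dist (g^[t] p) (g^[t] z) ≤ e / 2 := hz t ht
  have h3 : dist (g^[t] p') (g^[t] z) ≤ e / 2 := hz' t ht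
  have := dist_triangle_right (g^[t] p) (g^[t] p') (g^[t] z)
  linarith

/-- **Lower bound** -/
theorem ent_ge_per [CompactSpace X] [Nonempty X] {f : X ≃ₜ X} {e ε δ : ℝ} (hE : Ex f e)
    (hδ : 0 ≤ δ) (hε : 2 * ε ≤ e)
    (cl : ∀ n : ℕ, 1 ≤ n → ∀ q : ℕ → X, (∀ k < n, dist (f (q k)) (q (k + 1)) ≤ δ) → q n = q 0 →
      ∃ p, f^[n] p = p ∧ ∀ k ≤ n, dist (q k) (f^[k] p) ≤ ε)
    {τ : ℕ} (hM : Mx f δ τ) {a : ℕ} (ha : 1 ≤ a) :
    ((Real.log (Pn f a) / ((a + 2 * τ : ℕ) : ℝ) : ℝ) : EReal) ≤ Dynamics.coverEntropy f univ := by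
  have h0 := Dynamics.coverEntropy_nonneg (F := univ) f (univ_nonempty (α := X))
  rcases Nat.eq_zero_or_pos (Pn f a) with hz | hz
  · rw [hz]
    simpa using h0
  obtain ⟨m, hm⟩ : ∃ m, m = a + 2 * τ := ⟨_, rfl⟩
  have hm0 : m ≠ 0 := by omega
  rw [← hm]
  have hmono : Monotone fun n => (Dynamics.netMaxcard f univ (Cl X (e / 2)) n).toENNReal :=
    fun _ _ h => ENat.toENNReal_mono (Dynamics.netMaxcard_monotone_time f univ _ h)
  have h1 := hmono.expGrowthSup_comp_mul hm0
  have h2 : ENNReal.log (Pn f a : ENNReal) ≤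
      (m : EReal) * Dynamics.netEntropyEntourage f univ (Cl X (e / 2)) := by
    rw [Dynamics.netEntropyEntourage, ← h1, ← ExpGrowth.expGrowthSup_pow]
    refine ExpGrowth.expGrowthSup_monotone fun j => ?_
    show (Pn f a : ENNReal) ^ j ≤
      (Dynamics.netMaxcard f univ (Cl X (e / 2)) (m * j)).toENNReal
    have h3 : ((Pn f a ^ j : ℕ) : ℕ∞) ≤ Dynamics.netMaxcard f univ (Cl X (e / 2)) (m * j) := by
      rcases j with - | j
      · rw [Nat.mul_zero, Dynamics.netMaxcard_zero f univ_nonempty]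
        simp
      · have h4 := per_pow hE hδ hε cl hM ha j
        rw [← hm] at h4
        have h5 := per_le_net hE (g := f) (n := j * m + a) (by omega)
        have h6 : j * m + a ≤ m * (j + 1) := by
          rw [Nat.mul_add, Nat.mul_one, Nat.mul_comm m j]
          omega
        calc ((Pn f a ^ (j + 1) : ℕ) : ℕ∞) ≤ (Pn f (j * m + a) : ℕ∞) := by exact_mod_cast h4
          _ ≤ _ := h5
          _ ≤ _ := Dynamics.netMaxcard_monotone_time f univ _ h6
    have h7 := ENat.toENNReal_mono h3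
    refine le_trans (le_of_eq ?_) h7
    simp
  have h3 : ENNReal.log (Pn f a : ENNReal) = ((Real.log (Pn f a) : ℝ) : EReal) := by
    rw [ENNReal.log_pos_real]
    · simp
    · have : Pn f a ≠ 0 := by omega
      exact_mod_cast this
    · exact ENNReal.natCast_ne_top _
  have h4 : Dynamics.netEntropyEntourage f univ (Cl X (e / 2)) ≤ Dynamics.coverEntropy f univ :=
    Dynamics.netEntropyEntourage_le_coverEntropy f univ (Cl_unif (half_pos hE.pos))
  have hm1 : (0 : EReal) < (m : EReal) := by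
    have : 0 < m := by omega
    exact_mod_cast this
  have hm2 : (m : EReal) ≠ ⊤ := EReal.natCast_ne_top m
  rw [EReal.coe_div]
  have h5 : ((m : ℝ) : EReal) = (m : EReal) := by simp
  rw [h5, EReal.div_le_iff_le_mul hm1 hm2, ← h3]
  refine h2.trans ?_
  exact mul_le_mul_of_nonneg_left h4 hm1.le

end Pool.Agent.Y331.EP
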