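import Pool.Agent.H74.G.R_seed8.Y331.EP.Core

/-!
# Chain mixing of transitive homeomorphisms of connected spaces
-/

set_option autoImplicit false
set_option linter.unusedSectionVars false

open Filter Topology Set

namespace Pool.Agent.Y331.EP

variable {X : Type*} [MetricSpace X]

/-- topological transitivity -/
def TT (f : X → X) : Prop :=
  ∀ U V : Set X, IsOpen U → U.Nonempty → IsOpen V → V.Nonempty →
    ∃ n : ℕ, (f^[n] '' U ∩ V).Nonempty

/-- strict chains -/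
def Rn (f : X → X) (δ : ℝ) (n : ℕ) (x y : X) : Prop :=
  ∃ q : ℕ → X, (∀ k < n, dist (f (q k)) (q (k + 1)) < δ) ∧ q 0 = x ∧ q n = y

theorem Rn.comp {f : X → X} {δ : ℝ} {a b : ℕ} {x y z : X} (h1 : Rn f δ a x y)
    (h2 : Rn f δ b y z) : Rn f δ (a + b) x z := by
  obtain ⟨q1, p1, r1, s1⟩ := h1
  obtain ⟨q2, p2, r2, s2⟩ := h2
  have e : q1 a = q2 0 := by rw [s1, r2]
  refine ⟨cat a q1 q2, ?_, by rw [cat_le _ _ (Nat.zero_le _), r1], by rw [cat_ge e, s2]⟩
  intro k hk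
  by_cases h : k < a
  · rw [cat_le _ _ h.le, cat_le _ _ h]
    exact p1 k h
  · obtain ⟨j, rfl⟩ := Nat.exists_eq_add_of_le (not_lt.1 h)
    rw [cat_ge e, add_assoc, cat_ge e]
    exact p2 j (by omega)

/-- one step -/
theorem Rn.one {f : X → X} {δ : ℝ} {x y : X} (h : dist (f x) y < δ) : Rn f δ 1 x y := by
  refine ⟨fun k => if k = 0 then x else y, fun k hk => ?_, rfl, rfl⟩
  obtain rfl : k = 0 := by omega
  exact h

theorem Rn.orbit (f : X → X) {δ : ℝ} (hδ : 0 < δ) (n : ℕ) (x : X) : Rn f δ n x (f^[n] x) := by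
  refine ⟨fun k => f^[k] x, fun k _ => ?_, rfl, rfl⟩
  show dist (f (f^[k] x)) (f^[k + 1] x) < δ
  rw [Function.iterate_succ_apply', dist_self]
  exact hδ

theorem Rn.zero (f : X → X) {δ : ℝ} (x : X) : Rn f δ 0 x x :=
  ⟨fun _ => x, fun k hk => absurd hk (Nat.not_lt_zero k), rfl, rfl⟩

theorem rn_all {f : X ≃ₜ X} (hT : TT f) {δ : ℝ} (hδ : 0 < δ) (x y : X) :
    ∃ n, Rn f δ (n + 1) x y := by
  obtain ⟨n, w, ⟨z, hz, hzw⟩, hw⟩ := hT (Metric.ball (f x) δ) (f ⁻¹' Metric.ball y δ)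
    Metric.isOpen_ball ⟨f x, Metric.mem_ball_self hδ⟩ (Metric.isOpen_ball.preimage f.continuous)
    ⟨f.symm y, by rw [mem_preimage, f.apply_symm_apply]; exact Metric.mem_ball_self hδ⟩
  have h1 : Rn f δ 1 x z := Rn.one (by rw [dist_comm]; exact hz)
  have h2 : Rn f δ n z w := by rw [← hzw]; exact Rn.orbit f hδ n z
  have h3 : Rn f δ 1 w y := Rn.one hw
  exact ⟨1 + n, (h1.comp h2).comp h3⟩

/-- openness in the last point -/
theorem rn_open (f : X → X) {δ : ℝ} (n : ℕ) (x y : X) (h : Rn f δ (n + 1) x y) :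
    ∃ r > 0, ∀ z, dist z y < r → Rn f δ (n + 1) x z := by
  obtain ⟨q, h1, h2, h3⟩ := h
  have h4 := h1 n (by omega)
  rw [h3] at h4
  refine ⟨δ - dist (f (q n)) y, by linarith, fun z hz => ?_⟩
  have h5 : Rn f δ n x (q n) := ⟨q, fun k hk => h1 k (by omega), h2, rfl⟩
  refine h5.comp (Rn.one ?_)
  have := dist_triangle_right (f (q n)) z y
  linarith

theorem rn_pair [ConnectedSpace X] {f : X ≃ₜ X} (hT : TT f) {δ : ℝ} (hδ : 0 < δ) (x y z : X) :
    ∃ n, Rn f δ (n + 1) x y ∧ Rn f δ (n + 1) x z := by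
  have hsymm : ∀ y z : X, (∃ n, Rn f δ (n + 1) x y ∧ Rn f δ (n + 1) x z) →
      ∃ n, Rn f δ (n + 1) x z ∧ Rn f δ (n + 1) x y := fun y z ⟨n, a, b⟩ => ⟨n, b, a⟩
  have htrans : ∀ y z w : X, (∃ n, Rn f δ (n + 1) x y ∧ Rn f δ (n + 1) x z) →
      (∃ n, Rn f δ (n + 1) x z ∧ Rn f δ (n + 1) x w) →
      ∃ n, Rn f δ (n + 1) x y ∧ Rn f δ (n + 1) x w := by
    rintro y z w ⟨n, a, b⟩ ⟨m, c, d⟩
    obtain ⟨r, hr⟩ := rn_all hT hδ z x
    refine ⟨n + m + r + 2, ?_, ?_⟩
    · have := (c.comp hr).comp a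
      convert this using 1
      omega
    · have := (b.comp hr).comp d
      convert this using 1
      omega
  set A : Set X := {w | ∃ n, Rn f δ (n + 1) x y ∧ Rn f δ (n + 1) x w} with hA
  have hyA : y ∈ A := by
    obtain ⟨n, hn⟩ := rn_all hT hδ x y
    exact ⟨n, hn, hn⟩
  have hnb : ∀ w : X, ∃ r > 0, ∀ v, dist v w < r →
      ∃ n, Rn f δ (n + 1) x w ∧ Rn f δ (n + 1) x v := by
    intro w
    obtain ⟨n, hn⟩ := rn_all hT hδ x w
    obtain ⟨r, hr, h1⟩ := rn_open f n x w hn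
    exact ⟨r, hr, fun v hv => ⟨n, hn, h1 v hv⟩⟩
  have ho : IsOpen A := by
    rw [Metric.isOpen_iff]
    intro w hw
    obtain ⟨r, hr, h1⟩ := hnb w
    exact ⟨r, hr, fun v hv => htrans _ _ _ hw (h1 v hv)⟩
  have hcl : IsClosed A := by
    rw [← isOpen_compl_iff, Metric.isOpen_iff]
    intro w hw
    obtain ⟨r, hr, h1⟩ := hnb w
    refine ⟨r, hr, fun v hv hvA => hw ?_⟩
    exact htrans _ _ _ hvA (hsymm _ _ (h1 v hv))
  have hAu : A = univ := IsClopen.eq_univ ⟨hcl, ho⟩ ⟨y, hyA⟩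
  have hz : z ∈ A := hAu ▸ mem_univ z
  exact hz

theorem rn_self [ConnectedSpace X] {f : X ≃ₜ X} (hT : TT f) {δ : ℝ} (hδ : 0 < δ) (x : X) :
    ∃ N, ∀ n ≥ N, Rn f δ n x x := by
  obtain ⟨n, h1, h2⟩ := rn_pair hT hδ x x (f.symm x)
  have h3 : Rn f δ (n + 1 + 1) x x := by
    have := h2.comp (Rn.orbit f hδ 1 (f.symm x))
    rwa [Function.iterate_one, f.apply_symm_apply] at this
  have hm : ∀ (a : ℕ) (_ : Rn f δ a x x) (k : ℕ), Rn f δ (k * a) x x := by
    intro a ha k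
    induction k with
    | zero => rw [Nat.zero_mul]; exact Rn.zero f x
    | succ k ih =>
      rw [Nat.succ_mul]
      exact ih.comp ha
  refine ⟨(n + 1) * (n + 1), fun m hm' => ?_⟩
  obtain ⟨a, ha⟩ : ∃ a, a = n + 1 := ⟨_, rfl⟩
  rw [← ha] at h1 h3 hm'
  have h4 : m % a + a * (m / a) = m := Nat.mod_add_div m a
  have h5 : m % a < a := Nat.mod_lt _ (by omega)
  have h6 : a ≤ m / a := (Nat.le_div_iff_mul_le (by omega)).2 hm'
  obtain ⟨d, hd⟩ := Nat.exists_eq_add_of_le (h5.le.trans h6)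
  have h7 := (hm _ h3 (m % a)).comp (hm _ h1 d)
  have h8 : m % a * (a + 1) + d * a = m := by
    have h9 : a * (m / a) = a * (m % a) + a * d := by rw [hd, Nat.mul_add]
    rw [Nat.mul_comm a (m % a), Nat.mul_comm a d] at h9
    rw [Nat.mul_add, Nat.mul_one]
    omega
  rwa [h8] at h7

/-- **Chain mixing.** -/
theorem exists_mx [ConnectedSpace X] [CompactSpace X] {f : X ≃ₜ X} (hT : TT f) {δ : ℝ}
    (hδ : 0 < δ) : ∃ N : ℕ, ∀ n ≥ N, Mx f δ n := by
  classical
  have huc : UniformContinuous f := CompactSpace.uniformContinuous_of_continuous f.continuous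
  obtain ⟨η, hη, h1⟩ := Metric.uniformContinuous_iff.1 huc (δ / 2) (by linarith)
  obtain ⟨t, -, htf, ht⟩ := finite_cover_balls_of_compact (isCompact_univ (X := X))
    (lt_min hη (half_pos hδ))
  have h2 : ∀ x y : X, ∃ N, ∀ n ≥ N, Rn f (δ / 2) n x y := by
    intro x y
    obtain ⟨N, hN⟩ := rn_self hT (half_pos hδ) x
    obtain ⟨k, hk⟩ := rn_all hT (half_pos hδ) x y
    refine ⟨N + (k + 1), fun n hn => ?_⟩
    obtain ⟨j, rfl⟩ := Nat.exists_eq_add_of_le hn
    have := (hN (N + j) (by omega)).comp hk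
    convert this using 1
    omega
  choose N hN using h2
  obtain ⟨B, hB⟩ : ∃ B, ∀ x ∈ t, ∀ y ∈ t, N x y ≤ B := by
    refine ⟨htf.toFinset.sup fun x => htf.toFinset.sup fun y => N x y, fun x hx y hy => ?_⟩
    exact (Finset.le_sup (f := fun y => N x y) (htf.mem_toFinset.2 hy)).trans
      (Finset.le_sup (f := fun x => htf.toFinset.sup fun y => N x y) (htf.mem_toFinset.2 hx))
  refine ⟨B + 2, fun n hn u v => ?_⟩
  obtain ⟨x, hx, hux⟩ := mem_iUnion₂.1 (ht (mem_univ u))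
  obtain ⟨y, hy, hvy⟩ := mem_iUnion₂.1 (ht (mem_univ v))
  rw [Metric.mem_ball, lt_min_iff] at hux hvy
  obtain ⟨q, q1, q2, q3⟩ := hN x y n (by have := hB x hx y hy; omega)
  refine ⟨fun k => if k = 0 then u else if k = n then v else q k, fun k hk => ?_, rfl, ?_⟩
  · have h3 := q1 k hk
    by_cases k0 : k = 0
    · subst k0
      rw [q2] at h3
      have h4 := h1 hux.1
      have h5 := dist_triangle (f u) (f x) (q (0 + 1))
      simp only [if_true, Nat.zero_add, one_ne_zero, if_false]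
      rw [if_neg (by omega)]
      rw [Nat.zero_add] at h3 h5
      linarith
    · have e1 : (fun k => if k = 0 then u else if k = n then v else q k) k = q k := by
        simp only [k0, if_false]
        rw [if_neg (by omega)]
      rw [e1]
      by_cases k1 : k + 1 = n
      · simp only [k1, if_true]
        rw [if_neg (by omega)]
        rw [k1, q3] at h3
        have h4 := dist_triangle_right (f (q k)) v y
        linarith
      · simp only [k1, if_false]
        rw [if_neg (by omega)]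
        linarith
  · simp only [if_true]
    rw [if_neg (by omega)]

end Pool.Agent.Y331.EP
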